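import Pool.Agent.Helper61.QE.St5

/-!
# Project QD (MP_d112a4_gt), PART E, module BND: uniform bound for the energy
-/

open MeasureTheory Set Filter Topology Complex
open scoped ContDiff ComplexConjugate ENNReal

namespace Pool.Agent.Helper39.QE

open Pool.Agent.Helper68.QC
open Pool.Agent.Helper61.QE

private theorem bnd_int {S : Set ℂ} (c : ℝ) (hS : ∃ r < 1, ∀ z ∈ S, ‖z‖ ≤ r) :
    IntegrableOn (fun z : ℂ => c / (1 - ‖z‖ ^ 2) ^ 2) S := by
  obtain ⟨r, hr, h⟩ := hS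
  have h1 : ContinuousOn (fun z : ℂ => c / (1 - ‖z‖ ^ 2) ^ 2) (Metric.closedBall 0 r) := by
    refine ContinuousOn.div continuousOn_const (by fun_prop) ?_
    intro z hz
    have h2 : ‖z‖ ≤ r := by simpa using hz
    have h3 : 0 < 1 - ‖z‖ ^ 2 := by nlinarith [norm_nonneg z]
    positivity
  have h2 := h1.integrableOn_compact (isCompact_closedBall (0 : ℂ) r) (μ := volume)
  exact h2.mono_set fun z hz => by simpa using h z hz

theorem pBND (hAIN : Pool.Agent.Helper86.QA.StAIN) (hPE1 : Pool.Agent.Helper61.QE.StPE1)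
    (hFUC : Pool.Agent.Helper61.QE.StFUC) (hYGR : Pool.Agent.Helper61.QE.StYGR) :
    Pool.Agent.Helper61.QE.StBND := by
  intro Γ _ s F h hFu hFD hAb k hk κ hκ t ht
  obtain ⟨σ, -, hFuσ, hFDσ⟩ := hYGR Γ s F κ k hFu hFD hk hκ
  obtain ⟨-, -, hle, -⟩ := hPE1 Γ s F h κ k hFu hFD hAb hk hκ
  obtain ⟨⟨hs1, htf⟩, hs2⟩ := (hFUC Γ s).2 hFu
  obtain ⟨⟨hσ1, -⟩, hσ2⟩ := (hFUC Γ σ).2 hFuσ
  have har : Pool.Agent.Helper86.QA.ar2 (nq (syY κ) '' F) = Pool.Agent.Helper86.QA.ar2 F :=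
    (hAIN Γ σ s hσ1 hs1 htf _ _ (hσ2 _ hFDσ) (hs2 _ hFD)).1
  have hint := bnd_int Real.pi hFDσ.cpt
  have h1 : ∫ z in nq (syY κ) '' F, Real.pi / (1 - ‖z‖ ^ 2) ^ 2 =
      Real.pi / 4 * Pool.Agent.Helper86.QA.ar2 F := by
    rw [← har]
    unfold Pool.Agent.Helper86.QA.ar2
    rw [← integral_const_mul]
    congr 1
    funext z
    ring
  have hnn : 0 ≤ᵐ[volume.restrict (nq (syY κ) '' F)] fun z : ℂ => Real.pi / (1 - ‖z‖ ^ 2) ^ 2 :=
    Filter.Eventually.of_forall fun z => div_nonneg Real.pi_pos.le (sq_nonneg _)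
  have h2 := ofReal_integral_eq_lintegral_ofReal hint hnn
  have h3 : 0 ≤ Real.pi / 4 * Pool.Agent.Helper86.QA.ar2 F := by
    rw [← h1]
    exact integral_nonneg fun z => div_nonneg Real.pi_pos.le (sq_nonneg _)
  have h4 := hle t ht
  rw [← h2, h1] at h4
  exact ENNReal.toReal_le_of_le_ofReal h3 h4

end Pool.Agent.Helper39.QE

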