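import Pool.Agent.Helper61.QE.St5

/-!
# Project QD (MP_d112a4_gt), PART E, module TRF: transfer to the plane
-/

open MeasureTheory Set Filter Topology Complex
open scoped ContDiff ComplexConjugate ENNReal

namespace Pool.Agent.Helper39.QE

open Pool.Agent.Helper68.QC
open Pool.Agent.Helper61.QE

private theorem dKern_symm (f : ℂ → ℂ) (a b : ℂ) : dKern f a b = dKern f b a := by
  unfold dKern
  rw [mul_comm (deriv f a), show (f a - f b) ^ 2 = (f b - f a) ^ 2 by ring,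
    show (a - b) ^ 2 = (b - a) ^ 2 by ring]

theorem pTRF (hCVH : Pool.Agent.Helper61.QE.StCVH) (hRIE : Pool.Agent.Helper61.QE.StRIE) :
    Pool.Agent.Helper61.QE.StTRF := by
  intro Γ _ s F h κ k hFu hFD hAb hk hκ t ht
  obtain ⟨⟨hSm, r', hr', hS⟩, hR⟩ := hRIE Γ s F h κ k hFu hFD hAb hk hκ
  have h0 : muT κ h 0 = κ := by
    funext z
    unfold muT
    rw [zero_mul, add_zero]
  obtain ⟨f1, f2, f3, f4, f5, -⟩ := hR 0 (Metric.mem_ball_self one_pos)
  obtain ⟨g1, -, -, -, -, -⟩ := hR t ht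
  rw [h0] at f4 f5
  have hSD : nq (syY κ) '' F ⊆ D := fun z hz => by
    rw [Metric.mem_ball, dist_zero_right]
    exact (hS z hz).trans_lt hr'
  have hDo : IsOpen D := Metric.isOpen_ball
  obtain ⟨f0, hf0e⟩ : ∃ f0, f0 = ft κ h 0 := ⟨_, rfl⟩
  obtain ⟨f, hfe⟩ : ∃ f, f = ft κ h t := ⟨_, rfl⟩
  obtain ⟨Φ, hΦe⟩ : ∃ Φ : ℂ → ℂ, Φ = fun y => nq (muT κ h t) ((nq κ).symm y) := ⟨_, rfl⟩
  rw [← hf0e] at f1 f2 f3 f4 f5 ⊢
  rw [← hfe] at g1 ⊢
  rw [← hΦe]
  have hf0 : ∀ z, f0 z = nq κ ((nq (syY κ)).symm z) := fun z => by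
    rw [hf0e]
    unfold ft
    rw [h0]
  have hf : ∀ z, f z = nq (muT κ h t) ((nq (syY κ)).symm z) := fun z => by rw [hfe]; rfl
  let g : ℂ → ℂ := fun y => nq (syY κ) ((nq κ).symm y)
  have hgc : Continuous g := (nq (syY κ)).continuous.comp (nq κ).symm.continuous
  have hfg : ∀ y, f0 (g y) = y := by
    intro y
    rw [hf0]
    change nq κ ((nq (syY κ)).symm (nq (syY κ) ((nq κ).symm y))) = y
    rw [Homeomorph.symm_apply_apply, Homeomorph.apply_symm_apply]
  have hgf : ∀ z, g (f0 z) = z := by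
    intro z
    rw [hf0]
    change nq (syY κ) ((nq κ).symm (nq κ ((nq (syY κ)).symm z))) = z
    rw [Homeomorph.symm_apply_apply, Homeomorph.apply_symm_apply]
  have hΦ : f ∘ g = Φ := by
    funext y
    change f (nq (syY κ) ((nq κ).symm y)) = Φ y
    rw [hf, Homeomorph.symm_apply_apply, hΦe]
  have hder : ∀ z ∈ D, HasDerivAt Φ (deriv f z * (deriv f0 z)⁻¹) (f0 z) := by
    intro z hz
    have h1 : HasDerivAt f0 (deriv f0 z) (g (f0 z)) := by
      rw [hgf]
      exact (f1.differentiableAt (hDo.mem_nhds hz)).hasDerivAt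
    have h2 := HasDerivAt.of_local_left_inverse hgc.continuousAt h1 (f3 z hz)
      (Eventually.of_forall hfg)
    have h3 : HasDerivAt f (deriv f z) (g (f0 z)) := by
      rw [hgf]
      exact (g1.differentiableAt (hDo.mem_nhds hz)).hasDerivAt
    have h4 := h3.comp (f0 z) h2
    rwa [hΦ] at h4
  refine ⟨?_, ?_⟩
  · intro y hy
    rw [← f4] at hy
    obtain ⟨z, hz, rfl⟩ := hy
    exact (hder z hz).differentiableAt.differentiableWithinAt
  · have hker : ∀ z ∈ D, ∀ ζ ∈ D, dKern f z ζ - dKern f0 z ζ =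
        deriv f0 z * deriv f0 ζ * dKern Φ (f0 ζ) (f0 z) := by
      intro z hz ζ hζ
      have e1 : deriv f z = deriv Φ (f0 z) * deriv f0 z := by
        rw [(hder z hz).deriv, inv_mul_cancel_right₀ (f3 z hz)]
      have e2 : deriv f ζ = deriv Φ (f0 ζ) * deriv f0 ζ := by
        rw [(hder ζ hζ).deriv, inv_mul_cancel_right₀ (f3 ζ hζ)]
      have e3 : ∀ x, f x = Φ (f0 x) := by
        intro x
        rw [← hΦ]
        change f x = f (g (f0 x))
        rw [hgf]
      rw [dKern_symm Φ]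
      unfold dKern
      rw [e1, e2, e3 z, e3 ζ]
      ring
    rw [← f5, ← f4, hCVH D (nq (syY κ) '' F) f0 hDo f1 hSD hSm (f2.mono hSD)]
    refine setLIntegral_congr_fun hSm ?_
    intro ζ hζ
    have hζD := hSD hζ
    change _ = (∫⁻ b in f0 '' D, ENNReal.ofReal (‖dKern Φ (f0 ζ) b‖ ^ 2)) *
      ENNReal.ofReal (‖deriv f0 ζ‖ ^ 2)
    rw [hCVH D D f0 hDo f1 Subset.rfl hDo.measurableSet f2,
      ← lintegral_mul_const' _ _ ENNReal.ofReal_ne_top]
    refine setLIntegral_congr_fun hDo.measurableSet ?_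
    intro z hz
    change ENNReal.ofReal (‖dKern f z ζ - dKern f0 z ζ‖ ^ 2) =
      ENNReal.ofReal (‖dKern Φ (f0 ζ) (f0 z)‖ ^ 2) * ENNReal.ofReal (‖deriv f0 z‖ ^ 2) *
        ENNReal.ofReal (‖deriv f0 ζ‖ ^ 2)
    rw [← ENNReal.ofReal_mul (by positivity), ← ENNReal.ofReal_mul (by positivity),
      hker z hz ζ hζD, norm_mul, norm_mul]
    congr 1
    ring

end Pool.Agent.Helper39.QE

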